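import Pool.Agent.P.MP_546b07_lc.Grid

namespace Pool.Agent.Results.MP_546b07_lc.PlanarGrid

open Pool.Agent.P.MP_546b07_lc

theorem result (k : ℕ) (hk : 6 ≤ k) :
    ∃ (E : Fin 3 × Fin k → Fin 3 × Fin k → Prop) (w : Fin 3 × Fin k → Fin 3 × Fin k → ℝ),
      (∀ u v, (E u v ∨ E v u) ↔ (SimpleGraph.pathGraph 3 □ SimpleGraph.pathGraph k).Adj u v) ∧
      (∀ v, ¬Relation.TransGen E v v) ∧ (∀ u v, E u v → 0 < w u v) ∧
      ∀ h : Fin 3 × Fin k → Fin 3 × Fin k → ℕ, (∀ u v, E u v → 1 ≤ h u v) →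
        (∀ s t p, IsShortest E (fun u v => (h u v : ℝ)) s t p → IsShortest E w s t p) →
        ∃ u v, E u v ∧ 2 ^ (k / 9) ≤ 10 * h u v :=
  Grid.main hk

end Pool.Agent.Results.MP_546b07_lc.PlanarGrid
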