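import Pool.Agent.P.MP_546b07_lc.H42Low
import Pool.Agent.P.MP_546b07_lc.H42Up

namespace Pool.Agent.Results.MP_546b07_lc.SharpOrder

open Pool.Agent.P.MP_546b07_lc

theorem result (n : ℕ) (hn : 27 ≤ n) :
    (∃ (V : Type) (_ : Fintype V) (E : V → V → Prop) (w : V → V → ℝ),
      Fintype.card V = n ∧ (∀ v, ¬Relation.TransGen E v v) ∧ (∀ u v, E u v → 0 < w u v) ∧
      ∀ h : V → V → ℕ, (∀ u v, E u v → 1 ≤ h u v) →
        (∀ s t p, IsShortest E (fun u v => (h u v : ℝ)) s t p → IsShortest E w s t p) →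
        ∃ u v, E u v ∧ 2 ^ (2 * ((n - 3) / 24) ^ 2) ≤ h u v) ∧
    ∀ (V : Type) (_ : Fintype V) (E : V → V → Prop) (w : V → V → ℝ),
      Fintype.card V = n → (∀ u v, E u v → 0 < w u v) →
      ∃ h : V → V → ℕ, (∀ u v, E u v → 1 ≤ h u v ∧ h u v ≤ 2 ^ (4 * n ^ 2)) ∧
        ∀ s t p, IsShortest E (fun u v => (h u v : ℝ)) s t p → IsShortest E w s t p :=
  ⟨Low.main n hn, fun _ _ E w hc hw => hc ▸ Up.main E w hw⟩

end Pool.Agent.Results.MP_546b07_lc.SharpOrder
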