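import Pool.Agent.P.MP_546b07_lc.Tw3

namespace Pool.Agent.Results.MP_546b07_lc.TreewidthTwo

open Pool.Agent.P.MP_546b07_lc

theorem result (V : Type) [Fintype V] (E : V → V → Prop) (w : V → V → ℝ)
    (hE : ∀ v, ¬Relation.TransGen E v v) (hw : ∀ u v, E u v → 0 < w u v)
    (ι : Type) (T : SimpleGraph ι) (B : ι → Finset V) (hT : T.IsTree)
    (h1 : ∀ i, (B i).card ≤ 3) (h2 : ∀ u v, E u v → ∃ i, u ∈ B i ∧ v ∈ B i)
    (h3 : ∀ v, (T.induce {i | v ∈ B i}).Connected) :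
    ∃ h : V → V → ℕ, (∀ u v, E u v → 1 ≤ h u v ∧ h u v ≤ Fintype.card V ^ 6) ∧
      ∀ s t p, IsShortest E (fun u v => (h u v : ℝ)) s t p → IsShortest E w s t p :=
  Tw.main E w hE hw T B hT h1 h2 h3

end Pool.Agent.Results.MP_546b07_lc.TreewidthTwo
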