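import Pool.Agent.P.MP_546b07_lc.TLow

namespace Pool.Agent.Results.MP_546b07_lc.TwoSidedLower

open Pool.Agent.P.MP_546b07_lc

theorem result (a b : ℝ) (ha : 1 < a) (hb : 1 ≤ b) (n : ℕ) (hn : 10 ≤ n) :
    ∃ (V : Type) (_ : Fintype V) (E : V → V → Prop) (w : V → V → ℝ),
      Fintype.card V = n ∧ (∀ v, ¬Relation.TransGen E v v) ∧ (∀ u v, E u v → 0 < w u v) ∧
      (∀ s t p, IsApprox a E w s t p → IsApprox b E w s t p) ∧
      ∀ h : V → V → ℝ, (∀ u v, E u v → 0 < h u v) →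
        (∀ s t p, IsApprox a E h s t p → IsApprox b E w s t p) →
        ∃ u v x y, E u v ∧ E x y ∧ a ^ (((n - 2) / 8) ^ 2) * h x y < h u v :=
  TLow.main a b ha hb n hn

end Pool.Agent.Results.MP_546b07_lc.TwoSidedLower
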